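import Pool.Agent.W645.MD.FlowcA

set_option autoImplicit false

open MeasureTheory Set Metric Filter Topology
open scoped ContDiff

namespace Pool.Agent.W645.MD

open H459R3.NS W221.NS

/-- the displacement of the flow -/
theorem X_lip {U : ℝ → V → V} {α β : ℝ} {X : ℝ → V → V} (hX : Flow0 U α β X) {M : ℝ}
    (hM0 : 0 ≤ M) (hM : ∀ t ∈ Icc α β, ∀ x, ‖U t x‖ ≤ M) (x : V) {s t : ℝ} (hs : s ∈ Icc α β)
    (ht : t ∈ Icc α β) (hst : s ≤ t) : ‖X t x - X s x‖ ≤ M * (t - s) := by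
  have hsub : Icc s t ⊆ Icc α β := Icc_subset_Icc hs.1 ht.2
  have hc : ContinuousOn (fun τ => X τ x) (Icc s t) := by
    have h1 : ContinuousOn (fun τ : ℝ => ((τ, x) : ℝ × V)) (Icc s t) := by fun_prop
    exact hX.cont.comp h1 fun τ hτ => ⟨hsub hτ, mem_univ _⟩
  refine mvt hst hM0 hc (g' := fun τ => U τ (X τ x)) (fun τ hτ => hX.ode x τ
    ⟨lt_of_le_of_lt hs.1 hτ.1, lt_of_lt_of_le hτ.2 ht.2⟩) (fun τ hτ => hM τ (hsub ⟨hτ.1.le, hτ.2.le⟩) _)

/-- one step -/
theorem X_step {U : ℝ → V → V} {α β : ℝ} {X : ℝ → V → V} (hX : Flow0 U α β X) {M L : ℝ}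
    (hM0 : 0 ≤ M) (hL0 : 0 ≤ L) (hM : ∀ t ∈ Icc α β, ∀ x, ‖U t x‖ ≤ M)
    (hL : ∀ s ∈ Icc α β, ∀ t ∈ Icc α β, ∀ x y, ‖U s x - U t y‖ ≤ L * (|s - t| + ‖x - y‖))
    (x : V) {s t : ℝ} (hs : s ∈ Icc α β) (ht : t ∈ Icc α β) (hst : s ≤ t) :
    ‖X t x - X s x - (t - s) • U t (X t x)‖ ≤ L * (1 + M) * (t - s) ^ 2 := by
  have hsub : Icc s t ⊆ Icc α β := Icc_subset_Icc hs.1 ht.2
  have hc : ContinuousOn (fun τ => X τ x) (Icc s t) := by
    have h1 : ContinuousOn (fun τ : ℝ => ((τ, x) : ℝ × V)) (Icc s t) := by fun_prop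
    exact hX.cont.comp h1 fun τ hτ => ⟨hsub hτ, mem_univ _⟩
  have hts : 0 ≤ t - s := by linarith
  have h := mvt hst (g := fun τ => X τ x - τ • U t (X t x))
    (g' := fun τ => U τ (X τ x) - U t (X t x)) (C := L * (1 + M) * (t - s)) (by positivity)
    (hc.sub (by fun_prop)) ?_ ?_
  · have e : X t x - X s x - (t - s) • U t (X t x) =
        (X t x - t • U t (X t x)) - (X s x - s • U t (X t x)) := by module
    rw [e]
    refine h.trans (le_of_eq ?_)
    ring
  · intro τ hτ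
    have h1 := hX.ode x τ ⟨lt_of_le_of_lt hs.1 hτ.1, lt_of_lt_of_le hτ.2 ht.2⟩
    have h2 : HasDerivAt (fun τ : ℝ => τ • U t (X t x)) (U t (X t x)) τ := by
      simpa using (hasDerivAt_id τ).smul_const (U t (X t x))
    exact h1.sub h2
  · intro τ hτ
    have hτ' : τ ∈ Icc α β := hsub ⟨hτ.1.le, hτ.2.le⟩
    refine (hL τ hτ' t ht _ _).trans ?_
    have h1 : |τ - t| ≤ t - s := by
      rw [abs_sub_comm, abs_of_nonneg (by linarith [hτ.2])]
      linarith [hτ.1]
    have h2 : ‖X τ x - X t x‖ ≤ M * (t - s) := by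
      rw [norm_sub_rev]
      refine (X_lip hX hM0 hM x hτ' ht hτ.2.le).trans ?_
      exact mul_le_mul_of_nonneg_left (by linarith [hτ.1]) hM0
    calc L * (|τ - t| + ‖X τ x - X t x‖) ≤ L * ((t - s) + M * (t - s)) :=
          mul_le_mul_of_nonneg_left (add_le_add h1 h2) hL0
      _ = L * (1 + M) * (t - s) := by ring

/-- the Euler scheme -/
noncomputable def Ye (U : ℝ → V → V) (β h : ℝ) : ℕ → V → V
  | 0 => fun x => x
  | j + 1 => fun x => Ye U β h j x - h • U (β - j * h) (Ye U β h j x)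

theorem tau_mem {t β h : ℝ} {N : ℕ} (hh : 0 ≤ h) (hN : N * h = β - t) {j : ℕ} (hj : j ≤ N) :
    β - j * h ∈ Icc t β := by
  have h1 : (j : ℝ) ≤ N := by exact_mod_cast hj
  have h2 : (j : ℝ) * h ≤ N * h := mul_le_mul_of_nonneg_right h1 hh
  have h3 : 0 ≤ (j : ℝ) * h := by positivity
  exact ⟨by linarith, by linarith⟩

theorem Ye_disp {U : ℝ → V → V} {α β t h M : ℝ} {N : ℕ} (hh : 0 ≤ h) (hN : N * h = β - t)
    (hαt : α ≤ t) (hM : ∀ t ∈ Icc α β, ∀ x, ‖U t x‖ ≤ M) (x : V) :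
    ∀ j ≤ N, ‖Ye U β h j x - x‖ ≤ j * h * M := by
  intro j
  induction j with
  | zero => intro _; simp [Ye]
  | succ j ih =>
    intro hj
    have h1 := ih (by omega)
    have hτ := tau_mem hh hN (j := j) (by omega)
    have h2 := hM (β - j * h) ⟨hαt.trans hτ.1, hτ.2⟩ (Ye U β h j x)
    have e : Ye U β h (j + 1) x - x = (Ye U β h j x - x) - h • U (β - j * h) (Ye U β h j x) := by
      simp only [Ye]; abel
    rw [e]
    refine (norm_sub_le _ _).trans ?_
    rw [norm_smul, Real.norm_eq_abs, abs_of_nonneg hh]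
    push_cast
    have h3 := mul_le_mul_of_nonneg_left h2 hh
    nlinarith

theorem Ye_err {U : ℝ → V → V} {α β t h M L : ℝ} {N : ℕ} {X : ℝ → V → V}
    (hX : Flow0 U α β X) (hh : 0 ≤ h) (hN : N * h = β - t)
    (hαt : α ≤ t) (hM0 : 0 ≤ M) (hL0 : 0 ≤ L) (hM : ∀ t ∈ Icc α β, ∀ x, ‖U t x‖ ≤ M)
    (hL : ∀ s ∈ Icc α β, ∀ t ∈ Icc α β, ∀ x y, ‖U s x - U t y‖ ≤ L * (|s - t| + ‖x - y‖))
    (x : V) :
    ∀ j ≤ N, ‖Ye U β h j x - X (β - j * h) x‖ ≤
      j * (L * (1 + M) * h ^ 2) * (1 + h * L) ^ j := by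
  intro j
  induction j with
  | zero =>
    intro _
    simp [Ye, hX.fin x]
  | succ j ih =>
    intro hj
    have h1 := ih (by omega)
    have hτ := tau_mem hh hN (j := j) (by omega)
    have hτ' := tau_mem hh hN (j := j + 1) hj
    have hm : β - j * h ∈ Icc α β := ⟨hαt.trans hτ.1, hτ.2⟩
    have hm' : β - (j + 1 : ℕ) * h ∈ Icc α β := ⟨hαt.trans hτ'.1, hτ'.2⟩
    set τ : ℝ := β - j * h with hτd
    set σ : ℝ := β - (j + 1 : ℕ) * h with hσd
    have hd : τ - σ = h := by rw [hτd, hσd]; push_cast; ring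
    have h2 := X_step hX hM0 hL0 hM hL x hm' hm (by linarith)
    rw [hd] at h2
    have h3 := hL τ hm τ hm (Ye U β h j x) (X τ x)
    rw [sub_self, abs_zero, zero_add] at h3
    set K : ℝ := L * (1 + M) * h ^ 2 with hK
    have hK0 : 0 ≤ K := by positivity
    have e : Ye U β h (j + 1) x - X σ x = (Ye U β h j x - X τ x)
        - h • (U τ (Ye U β h j x) - U τ (X τ x)) + (X τ x - X σ x - h • U τ (X τ x)) := by
      simp only [Ye]
      rw [smul_sub]
      abel
    rw [e]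
    have h4 : ‖h • (U τ (Ye U β h j x) - U τ (X τ x))‖ ≤ h * (L * ‖Ye U β h j x - X τ x‖) := by
      rw [norm_smul, Real.norm_eq_abs, abs_of_nonneg hh]
      exact mul_le_mul_of_nonneg_left h3 hh
    have h5 : 1 ≤ (1 + h * L) ^ (j + 1) := one_le_pow₀ (by nlinarith [mul_nonneg hh hL0])
    have h6 : 0 ≤ 1 + h * L := by positivity
    calc _ ≤ ‖(Ye U β h j x - X τ x) - h • (U τ (Ye U β h j x) - U τ (X τ x))‖ +
          ‖X τ x - X σ x - h • U τ (X τ x)‖ := norm_add_le _ _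
      _ ≤ (‖Ye U β h j x - X τ x‖ + ‖h • (U τ (Ye U β h j x) - U τ (X τ x))‖) + K :=
          add_le_add (norm_sub_le _ _) h2
      _ ≤ (1 + h * L) * ‖Ye U β h j x - X τ x‖ + K := by nlinarith
      _ ≤ (1 + h * L) * (j * K * (1 + h * L) ^ j) + K * (1 + h * L) ^ (j + 1) := by
          have h7 := mul_le_mul_of_nonneg_left h1 h6
          have h8 : K * 1 ≤ K * (1 + h * L) ^ (j + 1) := mul_le_mul_of_nonneg_left h5 hK0
          linarith
      _ = ((j + 1 : ℕ) : ℝ) * K * (1 + h * L) ^ (j + 1) := by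
          push_cast
          ring

theorem Ye_cont {T : ℝ} {U : ℝ → V → V} (hU : Good T U) {α β t h : ℝ} {N : ℕ} (h0 : 0 < α)
    (hβ : β < T) (hh : 0 ≤ h) (hN : N * h = β - t) (hαt : α ≤ t) :
    ∀ j ≤ N, Continuous (Ye U β h j) := by
  intro j
  induction j with
  | zero => intro _; exact continuous_id
  | succ j ih =>
    intro hj
    have h1 := ih (by omega)
    have hτ := tau_mem hh hN (j := j) (by omega)
    have h2 : Continuous (U (β - j * h)) :=
      (cont_U hU ⟨lt_of_lt_of_le h0 (hαt.trans hτ.1), lt_of_le_of_lt hτ.2 hβ⟩).continuous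
    exact h1.sub ((h2.comp h1).const_smul h)

theorem supp_step {f : V → ℝ} (hfs : HasCompactSupport f) {W : V → V} {D : ℝ}
    (hW : ∀ x, ‖W x - x‖ ≤ D) : HasCompactSupport (fun x => f (W x)) := by
  obtain ⟨R, hR⟩ := hfs.isBounded.subset_closedBall (0 : V)
  refine HasCompactSupport.intro (isCompact_closedBall (0 : V) (R + D)) fun x hx => ?_
  have h1 : W x ∉ tsupport f := by
    intro hm
    have h2 := hR hm
    rw [mem_closedBall, dist_zero_right] at h2
    apply hx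
    rw [mem_closedBall, dist_zero_right]
    have h3 : x = W x - (W x - x) := by abel
    rw [h3]
    refine (norm_sub_le _ _).trans ?_
    linarith [hW x]
  exact image_eq_zero_of_notMem_tsupport h1

/-- the integrals along the Euler scheme -/
theorem Ye_int {T : ℝ} {U : ℝ → V → V} (hU : Good T U) {α β t h M L C : ℝ} {N : ℕ} (h0 : 0 < α)
    (hβ : β < T) (hh : 0 ≤ h) (hN : N * h = β - t) (hαt : α ≤ t) (hC : 0 ≤ C)
    (hL0 : 0 ≤ L) (hM : ∀ t ∈ Icc α β, ∀ x, ‖U t x‖ ≤ M)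
    (hL : ∀ s ∈ Icc α β, ∀ t ∈ Icc α β, ∀ x y, ‖U s x - U t y‖ ≤ L * (|s - t| + ‖x - y‖))
    (hE : ∀ W : V → V, ContDiff ℝ 1 W → (∀ x i j, |pd j (fun y => W y i) x| ≤ L) →
      (∀ x, ∑ i, pd i (fun y => W y i) x = 0) →
      ∀ f : V → ℝ, Continuous f → HasCompactSupport f →
      (∀ x, 0 ≤ f x) → |(∫ x, f (x + (-h) • W x)) - ∫ x, f x| ≤ C * h ^ 2 * ∫ x, f x) :
    ∀ j ≤ N, ∀ f : V → ℝ, Continuous f → HasCompactSupport f → (∀ x, 0 ≤ f x) →
      |(∫ x, f (Ye U β h j x)) - ∫ x, f x| ≤ ((1 + C * h ^ 2) ^ j - 1) * ∫ x, f x := by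
  intro j
  induction j with
  | zero => intro _ f _ _ _; simp [Ye]
  | succ j ih =>
    intro hj f hfc hfs hf0
    have hτ := tau_mem hh hN (j := j) (by omega)
    have hm : β - j * h ∈ Icc α β := ⟨hαt.trans hτ.1, hτ.2⟩
    have hm' : β - j * h ∈ Ioo 0 T := ⟨lt_of_lt_of_le h0 hm.1, lt_of_le_of_lt hm.2 hβ⟩
    set τ : ℝ := β - j * h with hτd
    set g : V → ℝ := fun y => f (y + (-h) • U τ y) with hg
    have hUc := cont_U hU hm'
    have hgc : Continuous g := hfc.comp (continuous_id.add (hUc.continuous.const_smul (-h)))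
    have hgs : HasCompactSupport g := by
      refine supp_step hfs (W := fun y => y + (-h) • U τ y) (D := h * M) fun x => ?_
      rw [add_sub_cancel_left, norm_smul, norm_neg, Real.norm_eq_abs, abs_of_nonneg hh]
      exact mul_le_mul_of_nonneg_left (hM τ hm x) hh
    have hg0 : ∀ x, 0 ≤ g x := fun x => hf0 _
    have h1 := ih (by omega) g hgc hgs hg0
    have h2 := hE (U τ) (hUc.of_le (by exact_mod_cast le_top)) (fun x i j =>
      pd_bound hL0 (fun x y => by
        have := hL τ hm τ hm x y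
        rwa [sub_self, abs_zero, zero_add] at this) x i j) (hU.2.2 τ hm') f hfc hfs hf0
    have e : (∫ x, f (Ye U β h (j + 1) x)) = ∫ x, g (Ye U β h j x) := by
      refine integral_congr_ae (Eventually.of_forall fun x => ?_)
      simp only [Ye, hg]
      rw [neg_smul, ← sub_eq_add_neg]
    rw [e]
    set I : ℝ := ∫ x, f x with hI
    have hI0 : 0 ≤ I := integral_nonneg hf0
    have h3 : (∫ x, g x) ≤ (1 + C * h ^ 2) * I := by
      have := (abs_le.1 h2).2
      linarith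
    have h4 : 0 ≤ (1 + C * h ^ 2) ^ j - 1 := by
      have : 1 ≤ (1 + C * h ^ 2) ^ j := one_le_pow₀ (by nlinarith [mul_nonneg hC (sq_nonneg h)])
      linarith
    calc |(∫ x, g (Ye U β h j x)) - I| ≤ |(∫ x, g (Ye U β h j x)) - ∫ x, g x| + |(∫ x, g x) - I| :=
          abs_sub_le _ _ _
      _ ≤ ((1 + C * h ^ 2) ^ j - 1) * (∫ x, g x) + C * h ^ 2 * I := add_le_add h1 h2
      _ ≤ ((1 + C * h ^ 2) ^ j - 1) * ((1 + C * h ^ 2) * I) + C * h ^ 2 * I := by
          have := mul_le_mul_of_nonneg_left h3 h4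
          linarith
      _ = ((1 + C * h ^ 2) ^ (j + 1) - 1) * I := by ring

theorem pow_le_exp' {x : ℝ} (hx : 0 ≤ x) (n : ℕ) : (1 + x) ^ n ≤ Real.exp (n * x) := by
  rw [Real.exp_nat_mul]
  refine pow_le_pow_left₀ (by linarith) ?_ n
  linarith [Real.add_one_le_exp x]

theorem t_FLOWC (h : S_EULER) : S_FLOWC := by
  intro T U hU α β h0 hαβ hβ X hX t ht f hfc hfs hf0
  obtain ⟨M, L, hM0, hL0, hM, hL⟩ := bnds hU h0 hβ
  obtain ⟨C, h₀, hC, hh0, hE⟩ := h L hL0
  set I : ℝ := ∫ x, f x with hI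
  have hI0 : 0 ≤ I := integral_nonneg hf0
  set δ : ℝ := β - t with hδ
  have hδ0 : 0 ≤ δ := by have := ht.2; rw [hδ]; linarith
  set hs : ℕ → ℝ := fun N => δ / (N + 1 : ℕ) with hhs
  have hs0 : ∀ N, 0 ≤ hs N := fun N => by positivity
  have hsN : ∀ N, ((N + 1 : ℕ) : ℝ) * hs N = δ := fun N => by
    have : ((N + 1 : ℕ) : ℝ) ≠ 0 := by positivity
    rw [hhs]
    field_simp
  have hst : Tendsto hs atTop (𝓝 0) := by
    have h1 : Tendsto (fun N : ℕ => δ / (N : ℝ)) atTop (𝓝 0) := tendsto_const_div_atTop_nhds_zero_nat δ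
    exact h1.comp (tendsto_add_atTop_nat 1)
  -- the integrals converge to I
  have hlim1 : Tendsto (fun N => ∫ x, f (Ye U β (hs N) (N + 1) x)) atTop (𝓝 I) := by
    have h1 : Tendsto (fun N => (Real.exp (C * δ * hs N) - 1) * I) atTop (𝓝 0) := by
      have h2 : Tendsto (fun N => (Real.exp (C * δ * hs N) - 1) * I) atTop
          (𝓝 ((Real.exp (C * δ * 0) - 1) * I)) := by
        have hcont : Continuous fun y : ℝ => (Real.exp (C * δ * y) - 1) * I := by fun_prop
        exact (hcont.tendsto 0).comp hst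
      simpa using h2
    have h3 : ∀ᶠ N in atTop, ‖(∫ x, f (Ye U β (hs N) (N + 1) x)) - I‖ ≤
        (Real.exp (C * δ * hs N) - 1) * I := by
      have h4 : ∀ᶠ N in atTop, hs N < h₀ := hst.eventually (gt_mem_nhds hh0)
      filter_upwards [h4] with N hN
      have h5 := Ye_int hU h0 hβ (hs0 N) (hsN N) ht.1 hC.le hL0 hM hL
        (fun W hW1 hW2 hW3 f hf1 hf2 hf3 => by
          have h6 := hE W hW1 hW2 hW3 (-(hs N)) (by
            rw [abs_neg, abs_of_nonneg (hs0 N)]; exact hN.le) f hf1 hf2 hf3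
          rwa [neg_sq] at h6) (N + 1) le_rfl f hfc hfs hf0
      rw [Real.norm_eq_abs]
      refine h5.trans (mul_le_mul_of_nonneg_right ?_ hI0)
      have h7 := pow_le_exp' (x := C * hs N ^ 2) (by positivity) (N + 1)
      have h8 : ((N + 1 : ℕ) : ℝ) * (C * hs N ^ 2) = C * δ * hs N := by
        calc ((N + 1 : ℕ) : ℝ) * (C * hs N ^ 2) = C * (((N + 1 : ℕ) : ℝ) * hs N) * hs N := by ring
          _ = C * δ * hs N := by rw [hsN]
      rw [h8] at h7
      linarith
    have h9 : Tendsto (fun N => (∫ x, f (Ye U β (hs N) (N + 1) x)) - I) atTop (𝓝 0) :=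
      squeeze_zero_norm' h3 h1
    have h10 := h9.add_const I
    simpa using h10
  -- they converge to the integral along the flow
  have hpt : ∀ x, Tendsto (fun N => Ye U β (hs N) (N + 1) x) atTop (𝓝 (X t x)) := by
    intro x
    have h1 : Tendsto (fun N => δ * (L * (1 + M)) * hs N * Real.exp (δ * L)) atTop (𝓝 0) := by
      have h2 := (hst.const_mul (δ * (L * (1 + M)))).mul_const (Real.exp (δ * L))
      simpa using h2
    have h3 : ∀ N, ‖Ye U β (hs N) (N + 1) x - X t x‖ ≤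
        δ * (L * (1 + M)) * hs N * Real.exp (δ * L) := by
      intro N
      have h4 := Ye_err hX (hs0 N) (hsN N) ht.1 hM0 hL0 hM hL x (N + 1) le_rfl
      have h5 : β - ((N + 1 : ℕ) : ℝ) * hs N = t := by rw [hsN, hδ]; ring
      rw [h5] at h4
      refine h4.trans ?_
      have h6 := pow_le_exp' (x := hs N * L) (by have := hs0 N; positivity) (N + 1)
      have h7 : ((N + 1 : ℕ) : ℝ) * (hs N * L) = δ * L := by rw [← mul_assoc, hsN]
      rw [h7] at h6
      have h8 : ((N + 1 : ℕ) : ℝ) * (L * (1 + M) * hs N ^ 2) = δ * (L * (1 + M)) * hs N := by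
        calc ((N + 1 : ℕ) : ℝ) * (L * (1 + M) * hs N ^ 2) =
              (((N + 1 : ℕ) : ℝ) * hs N) * (L * (1 + M)) * hs N := by ring
          _ = _ := by rw [hsN]
      rw [h8]
      refine mul_le_mul_of_nonneg_left h6 ?_
      have := hs0 N
      positivity
    exact tendsto_iff_norm_sub_tendsto_zero.2 (squeeze_zero (fun _ => norm_nonneg _) h3 h1)
  obtain ⟨B, hB⟩ := hfs.exists_bound_of_continuous hfc
  obtain ⟨R, hR⟩ := hfs.isBounded.subset_closedBall (0 : V)
  have hlim2 : Tendsto (fun N => ∫ x, f (Ye U β (hs N) (N + 1) x)) atTop (𝓝 (∫ x, f (X t x))) := by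
    refine tendsto_integral_of_dominated_convergence
      ((closedBall (0 : V) (R + δ * M)).indicator fun _ => B) ?_ ?_ ?_ ?_
    · intro N
      exact (hfc.comp (Ye_cont hU h0 hβ (hs0 N) (hsN N) ht.1 (N + 1) le_rfl)).aestronglyMeasurable
    · rw [integrable_indicator_iff measurableSet_closedBall]
      exact integrableOn_const (by
        exact (isCompact_closedBall (0 : V) (R + δ * M)).measure_lt_top.ne) (by simp)
    · intro N
      refine Eventually.of_forall fun x => ?_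
      by_cases hx : x ∈ closedBall (0 : V) (R + δ * M)
      · rw [indicator_of_mem hx]
        exact hB _
      · rw [indicator_of_notMem hx]
        have h1 : Ye U β (hs N) (N + 1) x ∉ tsupport f := by
          intro hm
          have h2 := hR hm
          rw [mem_closedBall, dist_zero_right] at h2
          apply hx
          rw [mem_closedBall, dist_zero_right]
          have h3 := Ye_disp (hs0 N) (hsN N) ht.1 hM x (N + 1) le_rfl
          rw [hsN] at h3
          have h4 : x = Ye U β (hs N) (N + 1) x - (Ye U β (hs N) (N + 1) x - x) := by abel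
          rw [h4]
          refine (norm_sub_le _ _).trans ?_
          linarith
        rw [image_eq_zero_of_notMem_tsupport h1, norm_zero]
    · exact Eventually.of_forall fun x => (hfc.tendsto _).comp (hpt x)
  exact tendsto_nhds_unique hlim2 hlim1

end Pool.Agent.W645.MD
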