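import Pool.Agent.W221.NS.Stm
import Pool.Agent.H459R3.NS.Four

set_option autoImplicit false

open MeasureTheory Set Metric Filter Topology
open scoped ContDiff

namespace Pool.Agent.W645.MD

open H459R3.NS W221.NS

theorem pair_norm (a : ℝ) (v : V) : ‖((a, v) : ℝ × V)‖ ≤ |a| + ‖v‖ := by
  rw [Prod.norm_def]
  refine max_le ?_ ?_
  · simp only [Real.norm_eq_abs]
    linarith [norm_nonneg v]
  · linarith [abs_nonneg a]

/-- reduction to the period cell -/
theorem red (x : V) : ∃ m : K3, ‖x - fun i => (m i : ℝ)‖ ≤ 1 := by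
  refine ⟨fun i => ⌊x i⌋, ?_⟩
  rw [pi_norm_le_iff_of_nonneg zero_le_one]
  intro i
  simp only [Pi.sub_apply, Real.norm_eq_abs]
  rw [abs_le]
  constructor
  · linarith [Int.floor_le (x i)]
  · linarith [Int.lt_floor_add_one (x i)]

theorem per_sub {f : V → V} (hf : Per f) (m : K3) (x : V) : f (x - fun i => (m i : ℝ)) = f x := by
  have h := hf.int m (x - fun i => (m i : ℝ))
  rw [sub_add_cancel] at h
  exact h.symm

theorem bnds {T : ℝ} {U : ℝ → V → V} (hU : Good T U) {α β : ℝ} (h0 : 0 < α)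
    (hβ : β < T) : ∃ M L : ℝ, 0 ≤ M ∧ 0 ≤ L ∧ (∀ t ∈ Icc α β, ∀ x, ‖U t x‖ ≤ M) ∧
      ∀ s ∈ Icc α β, ∀ t ∈ Icc α β, ∀ x y, ‖U s x - U t y‖ ≤ L * (|s - t| + ‖x - y‖) := by
  obtain ⟨hs, hp, _⟩ := hU
  set F : ℝ × V → V := fun z => U z.1 z.2 with hF
  set S : Set (ℝ × V) := Ioo 0 T ×ˢ univ with hS
  have hSo : IsOpen S := isOpen_Ioo.prod isOpen_univ
  set K : Set (ℝ × V) := Icc α β ×ˢ closedBall (0 : V) 3 with hK
  have hKc : IsCompact K := isCompact_Icc.prod (isCompact_closedBall _ _)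
  have hKS : K ⊆ S := by
    rintro ⟨t, x⟩ ⟨ht, _⟩
    exact ⟨⟨lt_of_lt_of_le h0 ht.1, lt_of_le_of_lt ht.2 hβ⟩, mem_univ _⟩
  have hKv : Convex ℝ K := (convex_Icc α β).prod (convex_closedBall _ _)
  obtain ⟨M, hM⟩ := hKc.exists_bound_of_continuousOn (hs.continuousOn.mono hKS)
  obtain ⟨D, hD⟩ := hKc.exists_bound_of_continuousOn
    ((hs.continuousOn_fderiv_of_isOpen hSo (by simp)).mono hKS)
  have hlt : ∀ t ∈ Icc α β, t ∈ Ioo 0 T := fun t ht =>
    ⟨lt_of_lt_of_le h0 ht.1, lt_of_le_of_lt ht.2 hβ⟩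
  have hM1 : ∀ t ∈ Icc α β, ∀ x, ‖U t x‖ ≤ max M 0 := by
    intro t ht x
    obtain ⟨m, hm⟩ := red x
    rw [← per_sub (hp t (hlt t ht)) m x]
    refine (hM (t, _) ⟨ht, ?_⟩).trans (le_max_left _ _)
    simp only [mem_closedBall, dist_zero_right]
    linarith
  have hL1 : ∀ s ∈ Icc α β, ∀ t ∈ Icc α β, ∀ x y, ‖x - y‖ ≤ 1 →
      ‖U s x - U t y‖ ≤ max D 0 * (|s - t| + ‖x - y‖) := by
    intro s hs' t ht x y hxy
    obtain ⟨m, hm⟩ := red x
    rw [← per_sub (hp s (hlt s hs')) m x, ← per_sub (hp t (hlt t ht)) m y]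
    set n : V := fun i => (m i : ℝ)
    have hy : ‖y - n‖ ≤ 2 := by
      have : y - n = (x - n) - (x - y) := by abel
      rw [this]
      refine (norm_sub_le _ _).trans ?_
      linarith
    have h1 := hKv.norm_image_sub_le_of_norm_fderiv_le (f := F) (𝕜 := ℝ) (C := D)
      (fun z hz => ((hs.contDiffAt (hSo.mem_nhds (hKS hz))).differentiableAt (by simp)))
      (fun z hz => hD z hz) (x := (t, y - n)) (y := (s, x - n))
      ⟨ht, by simp only [mem_closedBall, dist_zero_right]; linarith⟩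
      ⟨hs', by simp only [mem_closedBall, dist_zero_right]; linarith⟩
    refine h1.trans ?_
    have h2 : ((s, x - n) - (t, y - n) : ℝ × V) = (s - t, x - y) := by
      rw [Prod.mk_sub_mk]
      congr 1
      abel
    rw [h2]
    refine mul_le_mul (le_max_left _ _) (pair_norm _ _) (norm_nonneg _) (le_max_right _ _)
  refine ⟨max M 0, max D 0 + 2 * max M 0, le_max_right _ _, by positivity, hM1, ?_⟩
  intro s hs' t ht x y
  have hM0 : 0 ≤ max M 0 := le_max_right _ _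
  have hD0 : 0 ≤ max D 0 := le_max_right _ _
  have hn : 0 ≤ |s - t| + ‖x - y‖ := by positivity
  rcases le_or_gt ‖x - y‖ 1 with h | h
  · refine (hL1 s hs' t ht x y h).trans ?_
    exact mul_le_mul_of_nonneg_right (by linarith) hn
  · have h1 : ‖U s x - U t y‖ ≤ 2 * max M 0 := by
      refine (norm_sub_le _ _).trans ?_
      have := hM1 s hs' x
      have := hM1 t ht y
      linarith
    refine h1.trans ?_
    have h2 : 1 ≤ |s - t| + ‖x - y‖ := by linarith [abs_nonneg (s - t)]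
    nlinarith

theorem cont_U {T : ℝ} {U : ℝ → V → V} (hU : Good T U) {t : ℝ} (ht : t ∈ Ioo 0 T) :
    ContDiff ℝ ∞ (U t) := by
  have h1 : ContDiffOn ℝ ∞ (fun x : V => (fun z : ℝ × V => U z.1 z.2) (t, x)) univ :=
    hU.1.comp (contDiff_const.prodMk contDiff_id).contDiffOn (fun x _ => ⟨ht, mem_univ _⟩)
  exact contDiffOn_univ.1 h1

theorem pd_bound {W : V → V} {L : ℝ} (hL : 0 ≤ L) (h : ∀ x y, ‖W x - W y‖ ≤ L * ‖x - y‖)
    (x : V) (i j : Fin 3) : |pd j (fun y => W y i) x| ≤ L := by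
  unfold pd
  have h1 : ‖fderiv ℝ (fun y => W y i) x‖ ≤ L := by
    refine norm_fderiv_le_of_lip' ℝ hL (Eventually.of_forall fun y => ?_)
    refine le_trans ?_ (h y x)
    exact norm_le_pi_norm (W y - W x) i
  have h2 := (fderiv ℝ (fun y => W y i) x).le_opNorm (Pi.single j 1)
  have h3 : ‖(Pi.single j 1 : V)‖ = 1 := by rw [Pi.norm_single, norm_one]
  rw [h3, mul_one] at h2
  exact h2.trans h1

/-- mean value inequality with derivative in the open interval -/
theorem mvt {a b : ℝ} (hab : a ≤ b) {g g' : ℝ → V} {C : ℝ} (hC : 0 ≤ C)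
    (hc : ContinuousOn g (Icc a b)) (hd : ∀ s ∈ Ioo a b, HasDerivAt g (g' s) s)
    (hb : ∀ s ∈ Ioo a b, ‖g' s‖ ≤ C) : ‖g b - g a‖ ≤ C * (b - a) := by
  rcases hab.eq_or_lt with rfl | hab
  · simp
  rw [pi_norm_le_iff_of_nonneg (mul_nonneg hC (by linarith))]
  intro i
  obtain ⟨c, hc1, hc2⟩ := exists_hasDerivAt_eq_slope (fun s => g s i) (fun s => g' s i) hab
    (continuousOn_pi.1 hc i) (fun s hs => hasDerivAt_pi.1 (hd s hs) i)
  have h1 : g b i - g a i = g' c i * (b - a) := by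
    rw [hc2]
    field_simp [(sub_pos.2 hab).ne']
  rw [Pi.sub_apply, h1, norm_mul, Real.norm_eq_abs (b - a), abs_of_pos (sub_pos.2 hab)]
  exact mul_le_mul_of_nonneg_right ((norm_le_pi_norm (g' c) i).trans (hb c hc1))
    (sub_pos.2 hab).le

end Pool.Agent.W645.MD
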